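import Pool.Agent.P.MP_7211b7_an.NRFinal

/-!
# Scaling-critical Strichartz estimates on compact Lie groups, every bi-invariant metric

`G` is a compact connected Lie group modelled on `E = T_1 G`, with normalised Haar measure `μ`.
The metric is an arbitrary `Ad`-invariant inner product `B`: no rationality and no rectangularity
of the torus factor is assumed, so every flat torus `ℝ^d / Λ` is included.
`Δ = ∑ X_a²` for a `B`-orthonormal basis `b`, `d = dim G`, `r` = dimension of a maximal torus.
All definitions are in `Pool.Agent.P.MP_7211b7_an.DefsH`; `NR.flow_zero'` in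
`Pool.Agent.P.MP_7211b7_an.NRFinal` checks that the eigenspaces are complete.
-/

open MeasureTheory Manifold
open scoped ENNReal ContDiff

namespace Pool.Agent.Results.MP_7211b7_an.AllMetrics

open Pool.Agent.P.MP_7211b7_an.H

theorem result (E : Type) [NormedAddCommGroup E] [NormedSpace ℝ E] [FiniteDimensional ℝ E]
    (G : Type) [TopologicalSpace G] [ChartedSpace E G] [Group G] [LieGroup 𝓘(ℝ, E) ∞ G]
    [T2Space G] [CompactSpace G] [ConnectedSpace G] [MeasurableSpace G] [BorelSpace G]
    (μ : Measure G) [μ.IsHaarMeasure] [IsProbabilityMeasure μ]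
    (B : E → E → ℝ) (hB : IsBiInv G B)
    (d : ℕ) (b : Module.Basis (Fin d) ℝ E) (hb : ∀ i j, B (b i) (b j) = if i = j then 1 else 0)
    (T : Subgroup G) (hT : IsMaxTorus T) (r : ℕ) (hr : Module.finrank ℝ (subAlg E T) = r)
    (hr0 : 0 < r) (I : Set ℝ) (hI : Bornology.IsBounded I) (p : ℝ) (hp : 2 + 4 / (r : ℝ) < p) :
    ∃ C : NNReal, ∀ f : Lp ℂ 2 μ,
      stNorm μ I p (fun t => flow (eigSet μ fun a => expo G (b a)) t f)
        ≤ C * hsSq (eigSet μ fun a => expo G (b a)) (d / 2 - (d + 2) / p) f ^ (1 / 2 : ℝ) := by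
  refine Pool.Agent.P.MP_7211b7_an.NR.lie_strichartz' E G μ B hB b hb T hT I hI p ?_
  rw [hr]
  have h0 : (0 : ℝ) < r := Nat.cast_pos.2 hr0
  have h1 : 4 / (r : ℝ) < p - 2 := by linarith
  rwa [div_lt_iff₀' h0] at h1

end Pool.Agent.Results.MP_7211b7_an.AllMetrics
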